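import Pool.Agent.T2H38.OB.Defs
import Pool.Agent.W547.UB.Tate
import Pool.Agent.W495.FM.Hom
import Pool.Agent.R937.PZ.Mot

/-!
# Ordinary abelian varieties over finite fields in independent blocks
-/

set_option autoImplicit false

namespace Pool.Agent.T2H38.OB

open Pool.Agent.W495.TA Pool.Agent.W495.FM Pool.Agent.W547.LD Pool.Agent.W547.KB
open Pool.Agent.W547.UB (IndependentBlocks)
open Pool.Agent.W547.LN (IsCanonicalLift)
open scoped TensorProduct

noncomputable section

variable {p : ℕ} [Fact p.Prime] {ν : PadicAlgCl p ≃+* ℂ} {Ω : Type} [Field Ω] [CharZero Ω]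

/-- The identification of the Tate module with `Ω ⊗ H_1`. -/
def comparison (Y : RedAV p ν) : Pool.Agent.W530.NF.Comparison Y.X Ω (TM Ω Y) where
  ι := (TensorProduct.mk ℚ Ω Y.X.H1 1).toAddMonoidHom
  span_eq := by
    have h := TensorProduct.span_tmul_eq_top ℚ Ω Y.X.H1
    rw [eq_top_iff]
    rintro x -
    have hx : x ∈ Submodule.span ℚ {t : Ω ⊗[ℚ] Y.X.H1 | ∃ m n, m ⊗ₜ n = t} := h ▸ Submodule.mem_top
    induction hx using Submodule.span_induction with
    | mem x hx =>
      obtain ⟨c, y, rfl⟩ := hx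
      have h1 : c ⊗ₜ[ℚ] y = c • ((1 : Ω) ⊗ₜ[ℚ] y) := by
        rw [TensorProduct.smul_tmul', smul_eq_mul, mul_one]
      rw [h1]
      exact Submodule.smul_mem _ _ (Submodule.subset_span ⟨y, rfl⟩)
    | zero => exact Submodule.zero_mem _
    | add x y _ _ hx hy => exact Submodule.add_mem _ hx hy
    | smul c x _ hx =>
      have h1 : c • x = (c : Ω) • x := by
        rw [← algebraMap_smul Ω c x]
        rfl
      rw [h1]
      exact Submodule.smul_mem _ _ hx
  finrank_eq := Module.finrank_baseChange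

theorem comparison_frob (Y : RedAV p ν) :
    Pool.Agent.W547.LN.IsFrobeniusMap (comparison (Ω := Ω) Y) Y.π (F Ω Y) := fun x => by
  show (F Ω Y) ((1 : Ω) ⊗ₜ[ℚ] x) = (1 : Ω) ⊗ₜ[ℚ] (Y.π * x)
  rfl

theorem ringClass_of_tate {Y : RedAV p ν} (hY : IsOrdinaryBlocks Y) {j : ℕ} (f : Coh Ω Y (2 * j))
    (hf : IsTate j f) : IsRingClass Y (2 * j) f := by
  obtain ⟨J, b, hb, hl⟩ := hY
  refine Pool.Agent.W547.UB.tate_finiteField Y.X b hb p Y.a Y.pos ν Y.π hl (comparison (Ω := Ω) Y)
    (F Ω Y) (comparison_frob Y) one_pos f fun v => ?_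
  refine (hf v).trans ?_
  push_cast
  rfl

theorem tateHolds_ordinary {Y : RedAV p ν} {C : Cycles Ω Y} (hY : IsOrdinaryBlocks Y)
    (hC : IsChowO C) : TateHolds C :=
  fun j f hf => hC.ring j f (ringClass_of_tate hY f hf) hf

variable [IsAlgClosed Ω] {V : Type} {T : Homology Ω V}

theorem tb_ordinary (hT : IsHomology T) {X : V} (hX : Generated T (IsOrdinaryAbelian p ν T) X) :
    TB T X := by
  refine tb_generated hT (fun X hX => ?_) hX
  obtain ⟨Y, C, M, g, hY, hC, hM, hX⟩ := hX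
  exact tb_abelian hT hC.toIsChow (tateHolds_ordinary hY hC) hM hX

end

end Pool.Agent.T2H38.OB
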