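import Pool.Agent.W495.FM.HomDefs
import Pool.Agent.W547.UB.Defs
import Pool.Agent.W547.LN.TDefs

/-!
# Ordinary abelian varieties over finite fields in independent blocks: definitions
-/

set_option autoImplicit false

namespace Pool.Agent.T2H38.OB

open Pool.Agent.W495.TA Pool.Agent.W495.FM Pool.Agent.W547.LD
open Pool.Agent.W547.UB (IndependentBlocks)
open Pool.Agent.W547.LN (IsCanonicalLift)
open scoped TensorProduct

noncomputable section

variable {p : ℕ} [Fact p.Prime] {ν : PadicAlgCl p ≃+* ℂ} {Ω : Type} [Field Ω] [CharZero Ω]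

/-- The class `f` on the abelian variety `Y` over a finite field is a linear combination of reductions
of classes in the ring generated by the classes of divisors on the abelian variety `Y.X` of CM type
with reduction `Y` and by the pull-backs, along homomorphisms `Y.X → Z`, of split Weil classes on
abelian varieties `Z` of CM type of dimension four or six. -/
def IsRingClass (Y : RedAV p ν) (n : ℕ) (f : (TM Ω Y) [⋀^Fin n]→ₗ[Ω] Ω) : Prop :=
  ∃ (r : ℕ) (c : Fin r → Ω) (g : Fin r → Y.X.H1 [⋀^Fin n]→ₗ[ℚ] ℚ),
    (∀ i, DWRing Y.X (Fin n) (g i)) ∧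
      ∀ v : Fin n → Y.X.H1, f (fun k => 1 ⊗ₜ[ℚ] v k) = ∑ i, c i * ((g i v : ℚ) : Ω)

/-- The properties of the theory of algebraic cycles on `Y` modulo rational equivalence: `IsChow`, and
the Tate classes over the ground field which are reductions of classes in the ring above are linear
combinations of classes of algebraic cycles on `Y` (theorems of Lefschetz and Markman, and
specialization of cycles). -/
structure IsChowO {Y : RedAV p ν} (C : Cycles Ω Y) : Prop extends IsChow C where
  ring : ∀ j (f : Coh Ω Y (2 * j)), IsRingClass Y (2 * j) f → IsTate j f →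
    f ∈ Submodule.span Ω (Set.range (C.cl j))

/-- The abelian variety `Y` over a finite field is ordinary and its canonical lift `Y.X` is in
independent blocks. -/
def IsOrdinaryBlocks (Y : RedAV p ν) : Prop :=
  ∃ (J : Type) (b : Y.X.I → J), IndependentBlocks Y.X b ∧ IsCanonicalLift p Y.a ν Y.X Y.π

/-- The groups of motivic and of `ℓ`-adic homology of `X` are those of an ordinary abelian variety in
independent blocks. -/
def IsOrdinaryAbelian {V : Type} (p : ℕ) [Fact p.Prime] (ν : PadicAlgCl p ≃+* ℂ)
    (T : Homology Ω V) (X : V) : Prop :=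
  ∃ (Y : RedAV p ν) (C : Cycles Ω Y) (M : Motivic C) (g : ℕ), IsOrdinaryBlocks Y ∧ IsChowO C ∧
    IsMotivic M ∧ IsAbelian T X M g

end

end Pool.Agent.T2H38.OB
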